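import Pool.Agent.N763.QB.Loc
import Pool.Agent.N391.K17.N17
import Pool.Agent.N871.K21A.Stm

/-!
# Project K21A (helper871), parts 3N and 3U (helper51): the places over `3`

Adapted from `Pool/Agent/N82/K15/N5.lean` (helper82), `Pool/Agent/N31/K15/U5.lean` (helper31),
`Pool/Agent/N755/K21/T3.lean` (helper755) and `Pool/Agent/N966/K21/T3.lean` (helper966).
-/

set_option autoImplicit false

open NumberField IsDedekindDomain WithZero

namespace Pool.Agent.N51.K21A

open Pool.Agent.N763.QB (io sqL)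
open Pool.Agent.N49.QB (VV not_mem_of_not_dvd mem_of_dvd vv_emb hensel)
open Pool.Agent.N391.K17 (isq_div vv_sqf sq_res)
open Pool.Agent.N871.K21A (LoE C3 S_3N S_3U)

lemma p3 : Nat.Prime 3 := by norm_num

lemma hp3 : Prime (3 : ℤ) := by exact_mod_cast Nat.prime_iff_prime_int.1 p3

/-! ### the points -/

/-- the third factor is a square (adapted from `N755.K21.third_sq`) -/
theorem third_sq {L : Type} [Field L] (V : Valuation L ℤᵐ⁰) (h3 : V 3 < 1)
    (hh : ∀ z : L, V (z - 1) < 1 → IsSquare z) {x y : L} (hy : y ≠ 0)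
    (he : y ^ 2 = (x + 7) * x * (x - 9)) : IsSquare (x + 7) := by
  have hy2 : y ^ 2 ≠ 0 := pow_ne_zero 2 hy
  have hx0 : x ≠ 0 := by rintro rfl; rw [he] at hy2; simp at hy2
  have hx9 : x - 9 ≠ 0 := by intro h; rw [he, h] at hy2; simp at hy2
  have hx7 : x + 7 ≠ 0 := by intro h; rw [he, h] at hy2; simp at hy2
  have vx : V x ≠ 0 := (V.ne_zero_iff).2 hx0
  have v2 : V 2 ≤ 1 := by
    have : (2 : L) = 1 + 1 := by norm_num
    rw [this]
    exact V.map_add_le (by rw [map_one]) (by rw [map_one])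
  have v6 : V 6 < 1 := by
    have : (6 : L) = 2 * 3 := by norm_num
    rw [this, map_mul, mul_comm]
    exact mul_lt_one_of_lt_of_le h3 v2
  have v7 : V 7 ≤ 1 := by
    have : (7 : L) = 6 + 1 := by norm_num
    rw [this]
    exact V.map_add_le v6.le (by rw [map_one])
  have v9 : V 9 < 1 := by
    have : (9 : L) = 3 * 3 := by norm_num
    rw [this, map_mul]
    exact mul_lt_one_of_lt_of_le h3 h3.le
  rcases lt_trichotomy (V x) 1 with h | h | h
  · apply hh
    have e : x + 7 - 1 = x + 6 := by ring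
    rw [e]
    exact V.map_add_lt h v6
  · obtain ⟨s, hs⟩ := hh (1 - 9 / x) (by
      have e : 1 - 9 / x - 1 = -(9 / x) := by ring
      rw [e, Valuation.map_neg, map_div₀, h, div_one]
      exact v9)
    have hs' : x - 9 = x * (s * s) := by
      rw [← hs]; field_simp
    have hs0 : s ≠ 0 := by
      rintro rfl
      rw [mul_zero, mul_zero] at hs'
      exact hx9 hs'
    refine ⟨y / (x * s), ?_⟩
    rw [hs'] at he
    rw [div_mul_div_comm, ← sq, he]
    field_simp
  · obtain ⟨s, hs⟩ := hh (1 - 9 / x) (by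
      have e : 1 - 9 / x - 1 = -(9 / x) := by ring
      rw [e, Valuation.map_neg, map_div₀]
      rw [div_lt_one₀ (zero_lt_iff.2 vx)]
      exact v9.trans h)
    have hs' : x - 9 = x * (s * s) := by
      rw [← hs]; field_simp
    have hs0 : s ≠ 0 := by
      rintro rfl
      rw [mul_zero, mul_zero] at hs'
      exact hx9 hs'
    refine ⟨y / (x * s), ?_⟩
    rw [hs'] at he
    rw [div_mul_div_comm, ← sq, he]
    field_simp

/-! ### the necessary condition -/

/-- squares modulo `3` -/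
lemma mod_of_sq {n k : ℤ} (hn : ¬ (3 : ℤ) ∣ n) (h : (3 : ℤ) ∣ k ^ 2 - n) : n % 3 = 1 := by
  obtain ⟨q, hq'⟩ := h
  have key : ∀ j : ℤ, k % 3 = j → ∃ z : ℤ, n = 3 * z + j ^ 2 := by
    intro j hj
    have hk3 : 3 * (k / 3) + k % 3 = k := Int.mul_ediv_add_emod k 3
    refine ⟨3 * (k / 3) ^ 2 + 2 * (k / 3) * j - q, ?_⟩
    rw [hj] at hk3
    have h1 : k ^ 2 = (3 * (k / 3) + j) ^ 2 := by rw [hk3]
    linear_combination h1 - hq'
  have h3 : k % 3 = 0 ∨ k % 3 = 1 ∨ k % 3 = 2 := by omega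
  rcases h3 with h3 | h3 | h3 <;> obtain ⟨z, hz⟩ := key _ h3 <;>
    norm_num at hz <;> omega

theorem t_3N : S_3N := by
  intro m hm hm1 K _ _ r hq w hw a b ha hb hL
  have hw' : ((3 : ℕ) : 𝓞 K) ∈ w.asIdeal := by exact_mod_cast hw
  obtain ⟨x, y, hy0, he, hsa, -⟩ := hL
  have he' : y ^ 2 = (x + 7) * x * (x - 9) := by
    rw [he]
    push_cast
    ring
  have hsa' : IsSquare ((x + 7) * (a : w.adicCompletion K)) := by
    have e : (x + 7) * (a : w.adicCompletion K) = (x - ((-7 : ℤ) : w.adicCompletion K)) * a := by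
      push_cast
      ring
    rw [e]
    exact hsa
  have h3 : VV w (3 : w.adicCompletion K) < 1 := by
    have := vv_emb w _ hw
    rwa [map_ofNat] at this
  have hh : ∀ z : w.adicCompletion K, VV w (z - 1) < 1 → IsSquare z :=
    fun z hz => hensel p3 (by norm_num) w hw' z hz
  have hxs := third_sq (VV w) h3 hh hy0 he'
  have hx0 : x + 7 ≠ 0 := by
    intro h
    rw [h, zero_mul, zero_mul] at he'
    exact pow_ne_zero 2 hy0 he'
  -- `a` is a square
  have has : IsSquare (a : w.adicCompletion K) := by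
    obtain ⟨s, hs⟩ := hsa'
    exact isq_div (z := s) hx0 (by rw [sq, ← hs, mul_comm]) hxs
  have h2m : ¬ (3 : ℤ) ∣ m → ¬ ((3 : ℕ) : ℤ) ∣ 2 * m := by
    intro h h'
    rcases hp3.dvd_or_dvd (by exact_mod_cast h') with h2 | h2
    · norm_num at h2
    · exact h h2
  -- unramified: `3 ∤ a`
  have hun : ¬ (3 : ℤ) ∣ m → ¬ (3 : ℤ) ∣ a := by
    intro h h'
    have h1 := vv_sqf hq p3 (h2m h) w hw' a ha (by exact_mod_cast h')
    obtain ⟨s, hs⟩ := has
    have h3 := congrArg (VV w) hs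
    rw [map_mul, h1] at h3
    exact Pool.Agent.N49.QB.not_isq ⟨_, h3⟩
  have hres : ∀ c : ℤ, (3 : ℤ) ∣ c ^ 2 - m → ∀ n : ℤ, ¬ (3 : ℤ) ∣ n →
      IsSquare (n : w.adicCompletion K) → n % 3 = 1 := by
    intro c hc n hn hs
    obtain ⟨k, hk⟩ := sq_res hq hm hm1 p3 (by norm_num) w hw' c (by exact_mod_cast hc) n hs
    exact mod_of_sq hn (by exact_mod_cast hk)
  refine ⟨fun h => hun fun h' => ?_, fun h => ?_, fun h => ?_⟩
  · omega
  · exact hres 1 (by omega) a (hun fun h' => by omega) has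
  · have h' : (3 : ℤ) ∣ m := Int.dvd_of_emod_eq_zero h
    have hc : (3 : ℤ) ∣ (0 : ℤ) ^ 2 - m := by
      have e : (0 : ℤ) ^ 2 - m = -m := by ring
      rw [e]
      exact (dvd_neg).2 h'
    by_cases h1 : (3 : ℤ) ∣ a
    · right
      refine ⟨h1, ?_⟩
      obtain ⟨a', rfl⟩ := h1
      obtain ⟨m', rfl⟩ := h'
      rw [Int.mul_ediv_cancel_left _ (by norm_num), Int.mul_ediv_cancel_left _ (by norm_num)]
      have hnu : ∀ {z : ℤ}, Squarefree (3 * z) → ¬ (3 : ℤ) ∣ z := by
        rintro z hz ⟨u, rfl⟩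
        exact hp3.not_isUnit (hz 3 ⟨u, by ring⟩)
      refine hres 0 hc _ (fun h2 => ?_) ?_
      · rcases hp3.dvd_or_dvd h2 with h3 | h3
        · exact hnu ha h3
        · exact hnu hm h3
      · -- `a m = 3² n`
        have hms : IsSquare ((3 * m' : ℤ) : w.adicCompletion K) := by
          refine ⟨algebraMap K (w.adicCompletion K) r, ?_⟩
          rw [← map_mul, ← sq, hq.hr, map_intCast]
        have h30 : (3 : w.adicCompletion K) ≠ 0 := by
          have h3 : ((3 : ℕ) : w.adicCompletion K) ≠ 0 := by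
            have : CharZero (w.adicCompletion K) :=
              charZero_of_injective_algebraMap (algebraMap K (w.adicCompletion K)).injective
            exact Nat.cast_ne_zero.2 (by norm_num)
          exact_mod_cast h3
        obtain ⟨t, ht⟩ := has.mul hms
        refine ⟨t / 3, ?_⟩
        rw [div_mul_div_comm, ← ht]
        push_cast
        field_simp
    · left
      exact hres 0 hc a h1 has

/-! ### the sufficient condition -/

section
variable {K : Type} [Field K] [NumberField K] {w : HeightOneSpectrum (𝓞 K)}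

lemma int_ne {z : ℤ} (hz : z ≠ 0) : (z : w.adicCompletion K) ≠ 0 := by
  intro h
  have h1 : ((z : ℤ) : K) ≠ 0 := Int.cast_ne_zero.2 hz
  apply h1
  apply (algebraMap K (w.adicCompletion K)).injective
  rw [map_intCast, map_zero]
  exact h

lemma io_int (z : ℤ) : io w (z : 𝓞 K) = (z : w.adicCompletion K) := map_intCast _ _

/-- the integers `1` modulo `3` are squares -/
lemma sq3 (hw : ((3 : ℕ) : 𝓞 K) ∈ w.asIdeal) {n : ℤ} (h : n % 3 = 1) :
    IsSquare (n : w.adicCompletion K) := by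
  have h2 : (2 : 𝓞 K) ∉ w.asIdeal := by
    have := not_mem_of_not_dvd p3 w hw 2 (by norm_num)
    exact_mod_cast this
  have hn : ¬ ((3 : ℕ) : ℤ) ∣ n := by push_cast; omega
  have hn1 : ((3 : ℕ) : ℤ) ∣ n - 1 * 1 := by push_cast; omega
  have h3 := sqL h2 (not_mem_of_not_dvd p3 w hw n hn) (y := ((1 : ℤ) : 𝓞 K)) (by
    have := mem_of_dvd w hw (n - 1 * 1) hn1
    push_cast at this ⊢
    rw [mul_one]
    exact this)
  rwa [io_int] at h3

/-- the number `a` is a square -/
lemma sq_a (hw : ((3 : ℕ) : 𝓞 K) ∈ w.asIdeal) {m : ℤ} (hm : m ≠ 0) {r : K} (hr : r ^ 2 = (m : K))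
    {a : ℤ} (h : C3 m a) : IsSquare (a : w.adicCompletion K) := by
  have hm0 : (m : w.adicCompletion K) ≠ 0 := int_ne hm
  have hmr : (algebraMap K (w.adicCompletion K) r) ^ 2 = (m : w.adicCompletion K) := by
    rw [← map_pow, hr, map_intCast]
  have hdiv : IsSquare ((a * m : ℤ) : w.adicCompletion K) → IsSquare (a : w.adicCompletion K) := by
    rintro ⟨t, ht⟩
    refine ⟨t / algebraMap K (w.adicCompletion K) r, ?_⟩
    rw [div_mul_div_comm, ← ht, ← sq, hmr]
    push_cast
    field_simp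
  obtain ⟨h1, h2, h3⟩ := h
  have hmod : m % 3 = 0 ∨ m % 3 = 1 ∨ m % 3 = 2 := by omega
  rcases hmod with h | h | h
  · rcases h3 h with h6 | ⟨h6, h7⟩
    · exact sq3 hw h6
    · apply hdiv
      have h4 : (3 : ℤ) ∣ m := Int.dvd_of_emod_eq_zero h
      obtain ⟨t, ht⟩ := sq3 (w := w) hw h7
      refine ⟨3 * t, ?_⟩
      obtain ⟨a', rfl⟩ := h6
      obtain ⟨m', rfl⟩ := h4
      rw [Int.mul_ediv_cancel_left _ (by norm_num), Int.mul_ediv_cancel_left _ (by norm_num)] at ht
      push_cast at ht ⊢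
      linear_combination (3 * 3 : w.adicCompletion K) * ht
  · exact sq3 hw (h2 h)
  · have h4 := h1 h
    have h5 : a % 3 = 1 ∨ a % 3 = 2 := by omega
    rcases h5 with h5 | h5
    · exact sq3 hw h5
    · apply hdiv
      apply sq3 hw
      rw [Int.mul_emod, h5, h]
      norm_num

/-- the points -/
lemma point (hw : ((3 : ℕ) : 𝓞 K) ∈ w.asIdeal) {b : ℤ} (hb : Squarefree b) :
    ∃ x y : w.adicCompletion K, y ≠ 0 ∧ y ^ 2 = (x + 7) * x * (x - 9) ∧ IsSquare (x + 7) ∧
      IsSquare (x * b) := by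
  have e : ∀ n : ℤ, n ≠ 0 → (n : w.adicCompletion K) ≠ 0 := fun n hn => int_ne hn
  have hmod : b % 3 = 1 ∨ b % 3 = 2 ∨ b % 3 = 0 := by omega
  rcases hmod with h | h | h
  · obtain ⟨s, hs⟩ := sq3 (w := w) hw (n := -80) (by norm_num)
    obtain ⟨t, ht⟩ := sq3 (w := w) hw h
    have n3 := e 3 (by norm_num)
    have n1 := e (-80) (by norm_num)
    have n8 := e 8 (by norm_num)
    push_cast at hs n3 n1 n8
    have hs0 : s ≠ 0 := by
      rintro rfl
      rw [mul_zero] at hs
      exact n1 hs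
    refine ⟨1 / 3 ^ 2, 8 * s / 3 ^ 3, div_ne_zero (mul_ne_zero n8 hs0) (pow_ne_zero _ n3), ?_, ?_, ?_⟩
    · have : (8 * s / 3 ^ 3) ^ 2 = 64 * (s * s) / 3 ^ 6 := by field_simp; ring
      rw [this, ← hs]
      field_simp
      ring
    · refine ⟨8 / 3, ?_⟩
      field_simp
      ring
    · refine ⟨t / 3, ?_⟩
      rw [ht]
      field_simp
  · obtain ⟨s, hs⟩ := sq3 (w := w) hw (n := -5) (by norm_num)
    obtain ⟨u, hu⟩ := sq3 (w := w) hw (n := -35) (by norm_num)
    obtain ⟨t, ht⟩ := sq3 (w := w) hw (n := -7 * b) (by omega)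
    have n1 := e (-5) (by norm_num)
    have n2 := e 6048 (by norm_num)
    push_cast at hs hu ht n1 n2
    have hs0 : s ≠ 0 := by
      rintro rfl
      rw [mul_zero] at hs
      exact n1 hs
    refine ⟨-567, 6048 * s, mul_ne_zero n2 hs0, ?_, ?_, ?_⟩
    · have : (6048 * s) ^ 2 = 36578304 * (s * s) := by ring
      rw [this, ← hs]
      ring
    · exact ⟨4 * u, by linear_combination (16 : w.adicCompletion K) * hu⟩
    · exact ⟨9 * t, by linear_combination (81 : w.adicCompletion K) * ht⟩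
  · obtain ⟨b', rfl⟩ := Int.dvd_of_emod_eq_zero h
    have hb' : ¬ (3 : ℤ) ∣ b' := by
      rintro ⟨u, rfl⟩
      exact hp3.not_isUnit (hb 3 ⟨u, by ring⟩)
    have hmod : b' % 3 = 1 ∨ b' % 3 = 2 := by omega
    rcases hmod with h' | h'
    · obtain ⟨s, hs⟩ := sq3 (w := w) hw (n := 7) (by norm_num)
      obtain ⟨t, ht⟩ := sq3 (w := w) hw (n := 7 * b') (by omega)
      have n1 := e 84 (by norm_num)
      push_cast at hs ht n1
      refine ⟨21, 84, n1, by norm_num, ⟨2 * s, by linear_combination (4 : w.adicCompletion K) * hs⟩,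
        ⟨3 * t, ?_⟩⟩
      push_cast
      linear_combination (9 : w.adicCompletion K) * ht
    · obtain ⟨t, ht⟩ := sq3 (w := w) hw (n := -b') (by omega)
      have n1 := e 12 (by norm_num)
      push_cast at ht n1
      refine ⟨-3, 12, n1, by norm_num, ⟨2, by norm_num⟩, ⟨3 * t, ?_⟩⟩
      push_cast
      linear_combination (9 : w.adicCompletion K) * ht

end

/-- **K21A-3U** -/
theorem t_3U : S_3U := by
  intro m hm _ K _ _ r hQ w h3 a b ha hb h
  have hw' : ((3 : ℕ) : 𝓞 K) ∈ w.asIdeal := by exact_mod_cast h3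
  obtain ⟨x, y, h1, h2, h3, h4⟩ := point (w := w) hw' hb
  refine ⟨x, y, h1, ?_, ?_, ?_⟩
  · rw [h2]
    push_cast
    ring
  · have : x - ((-7 : ℤ) : w.adicCompletion K) = x + 7 := by push_cast; ring
    rw [this]
    exact h3.mul (sq_a hw' hm.ne_zero hQ.hr h)
  · have : x - ((0 : ℤ) : w.adicCompletion K) = x := by push_cast; ring
    rw [this]
    exact h4

end Pool.Agent.N51.K21A
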